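import Pool.Agent.H56.E.Base
import Pool.Agent.H56.E.H56.G3.TI

/-!
# Board gs3_modules, row BE: the sheets of the windows of `t` and of `t - l p` match
-/

set_option autoImplicit false

namespace Pool.Agent.H56.E.H92.G3

open Pool.Agent.H92.G3

open Finset Pool.Agent.H6.N4D Pool.Agent.H78.GX.H6.N4D Pool.Agent.H93.EB Pool.Agent.H93.GS Pool.Agent.H56.G3 Pool.Agent.H56.E.H56.G3

/-- the relation from the two inequalities of `INV` -/
theorem BE_rel (hBA : T_BA) {S : Par} {t : ℤ} {p i j N' n' : ℕ} {g g' : Ex} {κp e e₀ : ℝ}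
    (hκp : 0 < κp) (he1 : e ≤ κp / 2) (he2 : e ≤ e₀ / 2) (he3 : e ≤ κp * e₀)
    (hN : 0 < (N' : ℝ)) (hp : 0 < (p : ℝ)) (hx : 0 < S.rho * S.x t)
    (hNx : S.rho * S.x t ≤ 2 * (p * N')) (hj : κp ≤ ‖g.c j‖)
    (h1 : nd (g'.a i - p * g.a j) ≤ e / N')
    (h2 : ‖-g.c j * ee (p * g.a j * n') - g'.c i * ee (g'.a i * n')‖ ≤ e) (he : 0 < e) :
    nd (g'.a i - p * g.a j) ≤ p * e₀ / (S.rho * S.x t) ∧
      nd (ps g' n' i -
        (ps g (S.n t) j + g.a j * (p * (n' : ℝ) - S.n t) + 1 / 2)) ≤ e₀ := by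
  constructor
  · refine h1.trans ?_
    rw [div_le_div_iff₀ hN hx]
    nlinarith [mul_le_mul_of_nonneg_left hNx he.le,
      mul_le_mul_of_nonneg_right he2 (mul_pos hp hN).le]
  · obtain ⟨hb1, hb2, hb3⟩ := hBA
    have hz : g.c j * ee (g.a j * S.n t) ≠ 0 := by
      intro h0
      have h3 : ‖g.c j * ee (g.a j * S.n t)‖ = 0 := by rw [h0, norm_zero]
      rw [norm_mul, norm_ee, mul_one] at h3
      linarith
    have e1 : -g.c j * ee (p * g.a j * n') = (g.c j * ee (g.a j * S.n t)) *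
        ee (g.a j * (p * (n' : ℝ) - S.n t) + 1 / 2) := by
      have e2 : (p : ℝ) * g.a j * n' =
          g.a j * (S.n t : ℝ) + g.a j * (p * (n' : ℝ) - S.n t) := by ring
      rw [ee_add (g.a j * (p * (n' : ℝ) - S.n t)), ee_half, e2, ee_add]
      ring
    have h4 := hb3 (g.c j * ee (g.a j * S.n t)) (g.a j * (p * (n' : ℝ) - S.n t) + 1 / 2) hz
    rw [← e1] at h4
    have h5 : κp ≤ ‖-g.c j * ee (p * g.a j * n')‖ := by
      rw [norm_mul, norm_ee, mul_one, norm_neg]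
      exact hj
    have h6 := hb2 κp e _ _ hκp h5 h2
    have h7 : e / κp ≤ e₀ := by
      rw [div_le_iff₀ hκp]
      linarith
    have h8 := nd_tri (ps g' n' i) (ph (-g.c j * ee (p * g.a j * n')))
      (ph (g.c j * ee (g.a j * S.n t)) + (g.a j * (p * (n' : ℝ) - S.n t) + 1 / 2))
    rw [h4, add_zero] at h8
    have h9 : nd (ps g' n' i - ph (-g.c j * ee (p * g.a j * n'))) ≤ e / κp := by
      rw [nd_sub_comm]
      exact h6
    have e3 : ps g (S.n t) j + g.a j * (p * (n' : ℝ) - S.n t) + 1 / 2 =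
        ph (g.c j * ee (g.a j * S.n t)) + (g.a j * (p * (n' : ℝ) - S.n t) + 1 / 2) := by
      unfold ps
      ring
    rw [e3]
    linarith

theorem pf_BE (hRB : T_RB) (hRM : T_RM) (hINV : T_INV) (hBA : T_BA) (hEW : T_EW)
    (hSN : T_SN) : T_BE := by
  intro th κp e₀ K hth hth1 hκp he₀ hK
  obtain ⟨e, he⟩ : ∃ e, e = min (κp / 2) (min (e₀ / 2) (κp * e₀)) := ⟨_, rfl⟩
  have he0 : 0 < e := by
    rw [he]
    exact lt_min (by positivity) (lt_min (by positivity) (by positivity))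
  have he1 : e ≤ κp / 2 := he ▸ min_le_left _ _
  have he2 : e ≤ e₀ / 2 := he ▸ (min_le_right _ _).trans (min_le_left _ _)
  have he3 : e ≤ κp * e₀ := he ▸ (min_le_right _ _).trans (min_le_right _ _)
  obtain ⟨Lam, δ, N₀, hLam, hδ, hI⟩ := hINV (2 / th) κp e (by positivity) hκp he0
  refine ⟨min 1 (δ / 4), Lam, lt_min one_pos (by positivity), hLam, ?_⟩
  intro r
  obtain ⟨X1, hX1⟩ := hEW K r hK
  obtain ⟨X2, hX2⟩ := hSN K r (max (N₀ : ℝ) 100) hK
  refine ⟨max X1 X2, ?_⟩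
  intro S k₁ lam t p g g' hS hX hlam ht ht' hp hGp hSp' hdf' hNb hNb'
  obtain ⟨-, -, -, hrho, -, hsz, -, hQ⟩ := hX2 S k₁ hS ((le_max_right _ _).trans hX)
  have hew := (hX1 S k₁ t p hS ((le_max_left _ _).trans hX) ht ht' hp).2
  have hB : B1 lam := fun n => by
    rcases hlam.pm n with h | h <;> rw [h] <;> norm_num
  obtain ⟨n', hn'⟩ : ∃ n', n' = S.n (t - S.l p) := ⟨_, rfl⟩
  obtain ⟨N', hN'⟩ : ∃ N', N' = Nt S (t - S.l p) := ⟨_, rfl⟩
  have hA' := (hsz _ ht').1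
  obtain ⟨hdf, hSp⟩ := hGp
  rw [← hN'] at hew hA' hdf hSp hSp' hdf'
  rw [← hn'] at hdf hdf' ⊢
  obtain ⟨hA, -, hup, -, -, -, hlv⟩ := hsz t ht
  have hN100 : (100 : ℝ) ≤ Nt S t := (le_max_right _ _).trans hA
  have hN0 : N₀ ≤ N' := by
    have := (le_max_left (N₀ : ℝ) 100).trans hA'
    exact_mod_cast this
  have hN'100 : (100 : ℝ) ≤ N' := (le_max_right _ _).trans hA'
  have hN'1 : 1 ≤ N' := by
    have : (1 : ℝ) ≤ N' := by linarith
    exact_mod_cast this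
  -- sizes
  obtain ⟨i₀, hi₀, hpq⟩ := hQ p hp
  have hpp : p.Prime ∧ (p : ℝ) ≤ 2 ^ lv S.X i₀ := by
    unfold QQ at hpq
    rw [mem_filter, mem_Ioc] at hpq
    refine ⟨hpq.2, ?_⟩
    have h1 : p ≤ 2 ^ lv S.X i₀ :=
      hpq.1.2.trans (Nat.pow_le_pow_right (by norm_num) (Nat.div_le_self _ _))
    exact_mod_cast h1
  have hppos : 0 < (p : ℝ) := by exact_mod_cast hpp.1.pos
  have hp100 : 100 * (p : ℝ) ≤ Nt S t := by
    have h1 := hlv i₀ hi₀
    have h2 : (100 : ℝ) * p ≤ max (N₀ : ℝ) 100 * 2 ^ lv S.X i₀ :=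
      mul_le_mul (le_max_right _ _) hpp.2 hppos.le ((by norm_num : (0 : ℝ) ≤ 100).trans
        (le_max_right _ _))
    linarith
  have hxpos : 0 < S.x t := Par.x_pos t
  have hrpos : 0 < S.rho := hS.ok.hr0
  have hxn : S.x t < S.n t + 1 := Nat.lt_floor_add_one _
  have hrx : S.rho * S.x t < Nt S t + 2 := by nlinarith
  have hNx : S.rho * S.x t ≤ 2 * (p * N') := by
    have h1 := (abs_le.1 hew).1
    linarith
  -- the sums of the coefficients
  have hrb := hRB th lam 1 N' n' hth hB le_rfl hN'1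
  have hnm : ∀ h : Ex, df th lam 1 N' n' h ≤ min 1 (δ / 4) → h.nm ≤ 2 / th := by
    intro h hh
    refine hrb.2.2.2.2.2.1 h hN'1 ?_
    have h1 := hh.trans (min_le_left _ _)
    unfold df at h1
    have h2 := hrb.2.1
    linarith
  have hd1 : d2 1 N' n' (pb p g) g' ≤ δ := by
    have h1 := hRM th lam 1 N' n' (pb p g) g' hth hB le_rfl hN'1
    have h2 := hdf.trans (min_le_right _ _)
    have h3 := hdf'.trans (min_le_right _ _)
    linarith
  have hd2 : d2 1 N' n' g' (pb p g) ≤ δ := by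
    have h1 := hRM th lam 1 N' n' g' (pb p g) hth hB le_rfl hN'1
    have h2 := hdf.trans (min_le_right _ _)
    have h3 := hdf'.trans (min_le_right _ _)
    linarith
  have hI1 := hI N' n' (pb p g) g' hN0 (hnm _ hdf) (hnm _ hdf') hSp hSp' hd1
  have hI2 := hI N' n' g' (pb p g) hN0 (hnm _ hdf') (hnm _ hdf) hSp' hSp hd2
  have hN'pos : 0 < (N' : ℝ) := by linarith
  have hx0 : 0 < S.rho * S.x t := mul_pos hrpos hxpos
  have big : ∀ (z z' : ℂ), κp ≤ ‖z‖ → ‖z - z'‖ ≤ e → κp / 2 ≤ ‖z'‖ := by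
    intro z z' h1 h2
    have h3 := norm_sub_norm_le z z'
    linarith
  constructor
  · intro j hj
    unfold Lg at hj
    rw [mem_filter, mem_range] at hj
    have hj' : κp ≤ ‖(pb p g).c j‖ := by
      show κp ≤ ‖-g.c j‖
      rw [norm_neg]
      exact hj.2
    obtain ⟨i, hi, h1, h2⟩ := hI1 j hj.1 hj'
    have h1' : nd (g'.a i - p * g.a j) ≤ e / N' := by
      rw [nd_sub_comm]
      exact h1
    have h2' : ‖-g.c j * ee (p * g.a j * n') - g'.c i * ee (g'.a i * n')‖ ≤ e := h2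
    refine ⟨i, ?_, BE_rel hBA hκp he1 he2 he3 hN'pos hppos hx0 hNx hj.2 h1' h2' he0⟩
    unfold Lg
    rw [mem_filter, mem_range]
    refine ⟨hi, ?_⟩
    have h3 : κp ≤ ‖-g.c j * ee (p * g.a j * n')‖ := by
      rw [norm_mul, norm_ee, mul_one, norm_neg]
      exact hj.2
    have h4 := big _ _ h3 h2'
    rw [norm_mul, norm_ee, mul_one] at h4
    by_contra hc
    exact hNb' i hi ⟨h4, by linarith [not_le.1 hc]⟩
  · intro i hi
    unfold Lg at hi
    rw [mem_filter, mem_range] at hi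
    obtain ⟨j, hj, h1, h2⟩ := hI2 i hi.1 hi.2
    have hj1 : j < g.k := hj
    have h1' : nd (g'.a i - p * g.a j) ≤ e / N' := h1
    have h2a : ‖g'.c i * ee (g'.a i * n') - -g.c j * ee (p * g.a j * n')‖ ≤ e := h2
    have h2' : ‖-g.c j * ee (p * g.a j * n') - g'.c i * ee (g'.a i * n')‖ ≤ e := by
      rw [norm_sub_rev]
      exact h2a
    have h3 : κp ≤ ‖g'.c i * ee (g'.a i * n')‖ := by
      rw [norm_mul, norm_ee, mul_one]
      exact hi.2
    have h4 := big _ _ h3 h2a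
    rw [norm_mul, norm_ee, mul_one, norm_neg] at h4
    have h5 : κp ≤ ‖g.c j‖ := by
      by_contra hc
      exact hNb j hj1 ⟨h4, by linarith [not_le.1 hc]⟩
    refine ⟨j, ?_, BE_rel hBA hκp he1 he2 he3 hN'pos hppos hx0 hNx h5 h1' h2' he0⟩
    unfold Lg
    rw [mem_filter, mem_range]
    exact ⟨hj1, h5⟩

end Pool.Agent.H56.E.H92.G3
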